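import Mathlib
import Pool.Agent.Helper22.RKI.St

/-!
# Project RKI (MP_b3ce06_al), module NUM2
-/

set_option autoImplicit false

namespace Pool.Agent.Helper62.RKI

open Pool.Agent.Helper22.RKI Pool.Agent.Helper43.RK

theorem hNUM2 : StNUM2 := by
  intro n k β hP hg m h1 h2
  obtain ⟨e, he, hk⟩ := hP.ke
  obtain ⟨f, rfl⟩ : ∃ f, e = f + 3 := ⟨e - 3, by omega⟩
  obtain ⟨x, hx⟩ : ∃ x, x = 2 ^ f := ⟨_, rfl⟩
  have hx1 : 1 ≤ x := by rw [hx]; exact Nat.one_le_two_pow
  have hpow : 2 ^ (f + 3) = 8 * x := by rw [hx, pow_add]; ring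
  rw [hpow] at hk
  have hk1 : (k + 1) / 4 = 2 * x := by omega
  have hk2 : k - 1 = 2 * (4 * x - 1) := by omega
  have hβ : Nat.Coprime β 2 := by
    have := hP.b8
    rw [Nat.coprime_comm, Nat.Prime.coprime_iff_not_dvd Nat.prime_two]
    omega
  have hX : Nat.Coprime x (4 * x - 1) := by
    have h3 : Nat.Coprime (4 * x) (4 * x - 1) := by
      have h4 : 4 * x = (4 * x - 1) + 1 := by omega
      have h5 : Nat.Coprime ((4 * x - 1) + 1) (4 * x - 1) := by simp
      rw [← h4] at h5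
      exact h5
    exact Nat.Coprime.coprime_dvd_left ⟨4, by ring⟩ h3
  have hg' : Nat.gcd β (4 * x - 1) = n := by
    rw [hk2] at hg
    rw [← hg]
    exact (Nat.Coprime.gcd_mul_left_cancel_right (4 * x - 1) hβ.symm).symm
  have hgcd : Nat.gcd (β * ((k + 1) / 4)) (k - 1) = 2 * n := by
    rw [hk1, hk2]
    have h3 : β * (2 * x) = 2 * (β * x) := by ring
    rw [h3, Nat.gcd_mul_left, ← hg']
    congr 1
    rw [mul_comm β x]
    exact Nat.Coprime.gcd_mul_left_cancel β hX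
  have h3 := Nat.dvd_gcd h1 h2
  rw [Nat.pow_sub_one_gcd_pow_sub_one, hgcd, pow_mul] at h3
  exact h3

end Pool.Agent.Helper62.RKI
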